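import Pool.Agent.H75R4.Gab.Stmts

set_option autoImplicit false

namespace Pool.Agent.H168DD.Gab

open MeasureTheory Complex Pool.Agent.H75R4.Gab

theorem one_dim (l u b : ℝ) (h1 : l < u) (h2 : u - l ≤ 1) (hb : |b| < 1) :
    ∫ y in Set.Ico l u, exp (-(2 * (Real.pi : ℂ) * I * ((y * b : ℝ) : ℂ))) ≠ 0 := by
  rw [integral_Ico_eq_integral_Ioc, ← intervalIntegral.integral_of_le h1.le]
  by_cases hb0 : b = 0
  · subst hb0
    simp only [mul_zero, Complex.ofReal_zero, neg_zero, Complex.exp_zero]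
    rw [intervalIntegral.integral_const]
    simp only [mul_one, Complex.real_smul]
    norm_cast
    linarith
  · set c : ℂ := -(2 * (Real.pi : ℂ) * I * (b : ℂ)) with hc
    have hc0 : c ≠ 0 := by
      rw [hc]
      simp [Real.pi_ne_zero, hb0]
    have e : ∀ y : ℝ, exp (-(2 * (Real.pi : ℂ) * I * ((y * b : ℝ) : ℂ))) = exp (c * y) := by
      intro y
      rw [hc]
      push_cast
      ring_nf
    simp_rw [e]
    rw [integral_exp_mul_complex hc0]
    rw [div_ne_zero_iff]
    refine ⟨?_, hc0⟩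
    intro h
    rw [sub_eq_zero, Complex.exp_eq_exp_iff_exists_int] at h
    obtain ⟨n, hn⟩ := h
    have h3 : (2 * (Real.pi : ℂ) * I) * ((-(b * (u - l)) : ℝ) : ℂ) = (2 * (Real.pi : ℂ) * I) * n := by
      rw [hc] at hn
      push_cast
      linear_combination hn
    have h4 : (2 * (Real.pi : ℂ) * I) ≠ 0 := by simp [Real.pi_ne_zero]
    have h5 := mul_left_cancel₀ h4 h3
    have h6 : -(b * (u - l)) = (n : ℝ) := by exact_mod_cast h5
    have h7 : |b * (u - l)| < 1 := by
      rw [abs_mul, abs_of_pos (by linarith : 0 < u - l)]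
      nlinarith [abs_nonneg b]
    have h8 : |(n : ℝ)| < 1 := by
      rw [← h6, abs_neg]
      exact h7
    have h9 : n = 0 := by
      have : |n| < 1 := by exact_mod_cast h8
      exact Int.abs_lt_one_iff.1 this
    rw [h9] at h6
    have h10 : b * (u - l) = 0 := by
      have : -(b * (u - l)) = 0 := by rw [h6]; simp
      linarith
    rcases mul_eq_zero.1 h10 with h | h
    · exact hb0 h
    · linarith

theorem taskBox : TaskBox := by
  intro l u β hlu hlu1 hβ
  have hmp := EuclideanSpace.volume_preserving_symm_measurableEquiv_toLp (Fin 5)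
  have h1 : ∫ x in {x : V | ∀ i, l i ≤ x i ∧ x i < u i},
      exp (-(2 * (Real.pi : ℂ) * I * ((inner ℝ x β : ℝ) : ℂ))) =
      ∫ y in Set.pi Set.univ (fun i => Set.Ico (l i) (u i)),
        ∏ i : Fin 5, exp (-(2 * (Real.pi : ℂ) * I * ((y i * β i : ℝ) : ℂ))) := by
    rw [← hmp.setIntegral_preimage_emb (MeasurableEquiv.measurableEmbedding _)]
    have hs : (MeasurableEquiv.toLp 2 (Fin 5 → ℝ)).symm ⁻¹'
        (Set.pi Set.univ (fun i => Set.Ico (l i) (u i))) =
        {x : V | ∀ i, l i ≤ x i ∧ x i < u i} := by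
      ext x
      simp [Set.mem_pi]
    rw [hs]
    apply integral_congr_ae
    filter_upwards with x
    rw [← Complex.exp_sum]
    congr 1
    rw [Finset.sum_neg_distrib, ← Finset.mul_sum]
    congr 2
    rw [← Complex.ofReal_sum]
    congr 1
    rw [PiLp.inner_apply]
    apply Finset.sum_congr rfl
    intro i _
    simp [mul_comm]
  rw [h1, volume_pi, Measure.restrict_pi_pi, integral_fintype_prod_eq_prod
    (f := fun (i : Fin 5) (y : ℝ) => exp (-(2 * (Real.pi : ℂ) * I * ((y * β i : ℝ) : ℂ))))]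
  rw [Finset.prod_ne_zero_iff]
  intro i _
  exact one_dim (l i) (u i) (β i) (hlu i) (hlu1 i) (hβ i)

end Pool.Agent.H168DD.Gab
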